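import Mathlib
import Pool.Agent.U583.MW.Main
import Pool.Agent.U583.MW.Cone

/-!
# The monodromy-weight conjecture and trilinear hypersurfaces

Let `k` be a field of characteristic zero with an embedding into a `p`-adic field `K` whose residue field has
`q` elements. For a separated scheme `X` of finite type over `k` let `gr i w X = gr^W_w H^i_c(X_K̄, Ω)` be the
graded pieces of the weight filtration of the `ℓ`-adic cohomology with compact support, with a lift of the
Frobenius and the monodromy operator. The structure `Coh` lists the properties of these spaces which are used: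
they are the exact sequence of a closed subscheme, affine bundles, the Künneth formula for the multiplicative
group, and Weil numbers. We say that the monodromy-weight conjecture holds for `X` if `gr i w X` is mw pure of
weight `w` for all `i`, `w`; for a smooth projective `X` this is the conjecture for all `H^i(X_K̄)`.

* For every `n` the conjecture for the smooth projective `k`-schemes of dimension at most `n` is equivalent
  to the conjecture for the affine cubic hypersurfaces `T(x, y, z) = 1`, for all trilinear forms `T` over `k` in
  three blocks of variables one of which has at most `n + 2` variables.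
* For a single form `T` the conjecture for the hypersurface `T(x, y, z) = 1` is equivalent to the conjecture
  for the cone `T(x, y, z) = 0`.
* For `k = ℚ` the conjecture for all smooth projective schemes (so for all smooth projective varieties over
  number fields, at all places over `p`) is equivalent to the conjecture for the hypersurfaces
  `∑_{(i, j, k) ∈ S} x_i y_j z_k = 1` of the finite sets `S` of triples; they are smooth over `ℤ`.

The closure properties of the conjecture are proved in `Pool.Agent.U583.MW`: mw purity in five-term exact
sequences, by the decomposition into the parts of given weight. The geometric reduction to trilinear forms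
for any property with these closure properties is the one of `Pool.Agent.Y116.UV` and `Pool.Agent.Z125.UN`;
presentations over `ℚ` with coefficients `0` and `1` and the cones are added here.
-/

set_option autoImplicit false

open CategoryTheory AlgebraicGeometry MvPolynomial Pool.Agent.Y116.UV Pool.Agent.Z125.UN

namespace Pool.Agent.Results.MP_855f4c_ag.TrilinearHypersurfaces

open Pool.Agent.U583.MW

universe u v

/-- The cone `∑_{(i, j, k) ∈ S} x_i y_j z_k = 0` over `ℚ`. -/
noncomputable def tripCone {a b c : ℕ} (S : Finset (Fin a × Fin b × Fin c)) : Sch ℚ :=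
  coneS fun i j k => if (i, j, k) ∈ S then 1 else 0

theorem result :
    -- over a field of characteristic zero
    (∀ (k : Type) [Field k] [CharZero k] (Ω : Type u) [Field Ω] [CharZero Ω] [IsAlgClosed Ω] (q : ℕ),
      1 < q → ∀ H : Coh.{u, v} k Ω q,
        (∀ n : ℕ, H.MWDim n ↔ H.MWTri (n + 2)) ∧
        (∀ (a b c : ℕ) (T : Fin a → Fin b → Fin c → k), H.MW (hypS T) ↔ H.MW (coneS T)) ∧
        ∀ C : Sch k → Prop, IsProjClass H C → ∀ n : ℕ,
          (H.MWPr C n ↔ H.MWDim n) ∧ (H.MWPr C n ↔ H.MWTri (n + 2))) ∧
    -- over the rational numbers
    (∀ (Ω : Type u) [Field Ω] [CharZero Ω] [IsAlgClosed Ω] (q : ℕ), 1 < q →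
      ∀ (H : Coh.{u, v} ℚ Ω q) (C : Sch ℚ → Prop), IsProjClass H C →
        ((∀ X : Sch ℚ, C X → ∀ i : ℤ, (H.gr i i X).Pure q i) ↔
          ∀ (a b c : ℕ) (S : Finset (Fin a × Fin b × Fin c)), H.MW (tripS ℚ S)) ∧
        ((∀ X : Sch ℚ, C X → ∀ i : ℤ, (H.gr i i X).Pure q i) ↔
          ∀ (a b c : ℕ) (S : Finset (Fin a × Fin b × Fin c)), H.MW (tripCone S))) := by
  refine ⟨fun k _ _ Ω _ _ _ q hq H => ⟨fun n => dim_iff H hq n, fun a b c T =>
    cone_iff (bnd H hq) T, fun C hC n => ⟨?_, pr_iff H hq hC n⟩⟩, fun Ω _ _ _ q hq H C hC => ?_⟩
  · rw [dim_iff H hq n]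
    exact pr_iff H hq hC n
  · have h := rat_iff H hq hC
    refine ⟨h, h.trans ⟨fun h1 a b c S => ?_, fun h1 a b c S => ?_⟩⟩
    · exact (cone_iff (bnd H hq) _).1 ((tripS_iff H S).1 (h1 a b c S))
    · exact (tripS_iff H S).2 ((cone_iff (bnd H hq) _).2 (h1 a b c S))

end Pool.Agent.Results.MP_855f4c_ag.TrilinearHypersurfaces
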